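import Pool.Agent.Helper88.SlabFourier

/-!
# Project FA (MP_66ebcc_gt), module F1b: sub-Gaussian tail of a slab and comparison with the
square wave
-/

set_option autoImplicit false

open MeasureTheory Set Real
open Pool.Agent.Helper88.Slab (prob ind A cube)

namespace Pool.Agent.Helper89.FA

theorem f1b_factorial (n : ℕ) : 6 ^ n * n.factorial ≤ (2 * n + 1).factorial := by
  induction n with
  | zero => simp
  | succ n ih =>
    have h1 : (2 * (n + 1) + 1).factorial = (2 * n + 3) * ((2 * n + 2) * (2 * n + 1).factorial) := by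
      rw [show 2 * (n + 1) + 1 = (2 * n + 2) + 1 by ring, Nat.factorial_succ,
        show 2 * n + 2 = (2 * n + 1) + 1 by ring, Nat.factorial_succ]
    have h2 : 6 ^ (n + 1) * (n + 1).factorial = (6 * (n + 1)) * (6 ^ n * n.factorial) := by
      rw [pow_succ, Nat.factorial_succ]
      ring
    rw [h1, h2, ← Nat.mul_assoc (2 * n + 3)]
    refine Nat.mul_le_mul ?_ ih
    nlinarith

theorem f1b_sinh_le {c : ℝ} (hc : 0 ≤ c) : sinh c ≤ c * exp (c ^ 2 / 6) := by
  have h1 := Real.hasSum_sinh c
  have h2 : HasSum (fun n : ℕ => c * ((c ^ 2 / 6) ^ n / (n.factorial : ℝ))) (c * exp (c ^ 2 / 6)) := by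
    have h3 : HasSum (fun n : ℕ => (c ^ 2 / 6) ^ n / (n.factorial : ℝ)) (exp (c ^ 2 / 6)) := by
      rw [Real.exp_eq_exp_ℝ]
      exact NormedSpace.expSeries_div_hasSum_exp (c ^ 2 / 6)
    exact h3.mul_left c
  refine hasSum_le (fun n => ?_) h1 h2
  have h4 : ((6 : ℝ) ^ n * (n.factorial : ℝ)) ≤ ((2 * n + 1).factorial : ℝ) := by
    exact_mod_cast f1b_factorial n
  have h5 : (0 : ℝ) < (6 : ℝ) ^ n * (n.factorial : ℝ) := by positivity
  have h6 : c * ((c ^ 2 / 6) ^ n / (n.factorial : ℝ)) = c ^ (2 * n + 1) / ((6 : ℝ) ^ n * (n.factorial : ℝ)) := by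
    rw [div_pow, ← pow_mul, pow_succ]
    field_simp
  rw [h6]
  exact div_le_div_of_nonneg_left (by positivity) h5 h4

theorem f1b_A_cosh (b lam y : ℝ) :
    A b (fun z => cosh (lam * z)) y ≤ exp (lam ^ 2 * b ^ 2 / 6) * cosh (lam * y) := by
  rw [Pool.Agent.Helper88.Slab.A_eq]
  rcases eq_or_ne (lam * b) 0 with h | h
  · have h1 : ∀ u : ℝ, lam * (b * u + y) = lam * y := by
      intro u
      have : lam * (b * u + y) = (lam * b) * u + lam * y := by ring
      rw [this, h]; ring
    simp_rw [h1]
    have h2 : lam ^ 2 * b ^ 2 / 6 = 0 := by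
      rw [← mul_pow, h]; norm_num
    rw [h2, exp_zero]
    simp
    linarith
  · have h1 : ∀ u : ℝ, cosh (lam * (b * u + y)) = cosh ((lam * b) * u + lam * y) := by
      intro u; ring_nf
    simp_rw [h1]
    have hint : ∫ z in ((lam * b) * (-1) + lam * y)..((lam * b) * 1 + lam * y), cosh z =
        sinh ((lam * b) * 1 + lam * y) - sinh ((lam * b) * (-1) + lam * y) :=
      intervalIntegral.integral_eq_sub_of_hasDerivAt (fun x _ => Real.hasDerivAt_sinh x)
        (Real.continuous_cosh.intervalIntegrable _ _)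
    rw [intervalIntegral.integral_comp_mul_add (fun z => cosh z) h (lam * y), hint]
    rw [show (lam * b) * 1 + lam * y = lam * y + lam * b by ring,
      show (lam * b) * (-1) + lam * y = lam * y - lam * b by ring, Real.sinh_add, Real.sinh_sub,
      smul_eq_mul]
    have h2 : (1 / 2 : ℝ) * ((lam * b)⁻¹ * (sinh (lam * y) * cosh (lam * b) + cosh (lam * y) * sinh (lam * b) -
        (sinh (lam * y) * cosh (lam * b) - cosh (lam * y) * sinh (lam * b)))) =
        ((lam * b)⁻¹ * sinh (lam * b)) * cosh (lam * y) := by ring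
    rw [h2]
    refine mul_le_mul_of_nonneg_right ?_ (Real.cosh_pos _).le
    have h3 : ∀ c : ℝ, 0 < c → c⁻¹ * sinh c ≤ exp (c ^ 2 / 6) := by
      intro c hc
      rw [inv_mul_le_iff₀ hc]
      exact f1b_sinh_le hc.le
    rw [show lam ^ 2 * b ^ 2 / 6 = (lam * b) ^ 2 / 6 by ring]
    rcases lt_or_gt_of_ne h with h4 | h4
    · have := h3 (-(lam * b)) (by linarith)
      rw [Real.sinh_neg, inv_neg, neg_mul_neg, neg_sq] at this
      exact this
    · exact h3 _ h4

theorem f1b_cube_cosh {n : ℕ} (b : Fin n → ℝ) (lam : ℝ) :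
    ∫ y, cosh (lam * ∑ j, b j * y j) ∂(cube n) ≤ exp (lam ^ 2 * (∑ j, b j ^ 2) / 6) := by
  induction n with
  | zero => simp
  | succ n ih =>
    rw [Pool.Agent.Helper88.Slab.cube_split_cont 0 b (fun z => cosh (lam * z)) (by fun_prop)]
    have hc : Continuous (A (b 0) (fun z => cosh (lam * z))) :=
      Pool.Agent.Helper88.Slab.A_cont (b 0) (by fun_prop)
    calc ∫ y, A (b 0) (fun z => cosh (lam * z)) (∑ j, b (Fin.succAbove 0 j) * y j) ∂(cube n)
        ≤ ∫ y, exp (lam ^ 2 * (b 0) ^ 2 / 6) * cosh (lam * (∑ j, b (Fin.succAbove 0 j) * y j)) ∂(cube n) := by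
          refine integral_mono ?_ ?_ (fun y => f1b_A_cosh _ _ _)
          · exact Pool.Agent.Helper88.Slab.integrable_cube (hc.comp (by fun_prop))
          · exact Pool.Agent.Helper88.Slab.integrable_cube (by fun_prop)
      _ = exp (lam ^ 2 * (b 0) ^ 2 / 6) * ∫ y, cosh (lam * (∑ j, b (Fin.succAbove 0 j) * y j)) ∂(cube n) := by
          rw [integral_const_mul]
      _ ≤ exp (lam ^ 2 * (b 0) ^ 2 / 6) * exp (lam ^ 2 * (∑ j, b (Fin.succAbove 0 j) ^ 2) / 6) :=
          mul_le_mul_of_nonneg_left (ih _) (exp_pos _).le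
      _ = exp (lam ^ 2 * (∑ j, b j ^ 2) / 6) := by
          rw [← exp_add, Fin.sum_univ_succ]
          simp only [Fin.zero_succAbove]
          congr 1
          ring

/-- F1b. Sub-Gaussian tail. -/
theorem tail_prob {n : ℕ} (a : Fin n → ℝ) (ha : ∑ j, a j ^ 2 = 1) {L : ℝ} (hL : 0 ≤ L) :
    1 - prob a L ≤ 2 * exp (-(3 / 2) * L ^ 2) := by
  have h1 : ∀ z : ℝ, 1 - ind L z ≤ 2 * exp (-(3 * L) * L) * cosh (3 * L * z) := by
    intro z
    unfold ind
    split_ifs with h
    · rw [sub_self]
      have := Real.cosh_pos (3 * L * z)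
      positivity
    · push Not at h
      rw [sub_zero]
      have h2 : exp (3 * L * |z|) ≤ 2 * cosh (3 * L * z) := by
        rw [Real.cosh_eq]
        rcases abs_choice z with hz | hz
        · rw [hz]
          have := exp_pos (-(3 * L * z))
          linarith
        · rw [hz]
          have := exp_pos (3 * L * z)
          have h3 : 3 * L * -z = -(3 * L * z) := by ring
          rw [h3]
          linarith
      have h4 : exp (3 * L * L) ≤ exp (3 * L * |z|) := by
        apply exp_le_exp.2
        have : L ≤ |z| := h.le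
        nlinarith
      have h5 : exp (-(3 * L) * L) * exp (3 * L * L) = 1 := by
        rw [← exp_add]
        have : -(3 * L) * L + 3 * L * L = 0 := by ring
        rw [this, exp_zero]
      calc (1 : ℝ) = exp (-(3 * L) * L) * exp (3 * L * L) := h5.symm
        _ ≤ exp (-(3 * L) * L) * (2 * cosh (3 * L * z)) :=
            mul_le_mul_of_nonneg_left (h4.trans h2) (exp_pos _).le
        _ = _ := by ring
  have hi : Integrable (fun x : Fin n → ℝ => ind L (∑ j, a j * x j)) (cube n) :=
    Pool.Agent.Helper88.Slab.ind_integrable_cube L a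
  have h2 : 1 - prob a L = ∫ x, (1 - ind L (∑ j, a j * x j)) ∂(cube n) := by
    rw [integral_sub (integrable_const _) hi]
    simp [prob]
  rw [h2]
  calc ∫ x, (1 - ind L (∑ j, a j * x j)) ∂(cube n)
      ≤ ∫ x, 2 * exp (-(3 * L) * L) * cosh (3 * L * (∑ j, a j * x j)) ∂(cube n) := by
        refine integral_mono ((integrable_const _).sub hi) ?_ (fun x => h1 _)
        exact Pool.Agent.Helper88.Slab.integrable_cube (by fun_prop)
    _ = 2 * exp (-(3 * L) * L) * ∫ x, cosh (3 * L * (∑ j, a j * x j)) ∂(cube n) := by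
        rw [integral_const_mul]
    _ ≤ 2 * exp (-(3 * L) * L) * exp ((3 * L) ^ 2 * (∑ j, a j ^ 2) / 6) :=
        mul_le_mul_of_nonneg_left (f1b_cube_cosh a (3 * L)) (by positivity)
    _ = 2 * exp (-(3 / 2) * L ^ 2) := by
        rw [ha, mul_assoc, ← exp_add]
        congr 2
        ring

/-- F1b. Comparison of the indicator with the square wave. -/
theorem prob_ge_wave {n : ℕ} (a : Fin n → ℝ) (ha : ∑ j, a j ^ 2 = 1) {t : ℝ} (ht : 0 < t) :
    (∫ x, (if 0 < cos (π / (2 * t) * ∑ j, a j * x j) then (1 : ℝ) else 0) ∂(cube n))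
      - 2 * exp (-(27 / 2) * t ^ 2) ≤ prob a t := by
  have hpt : ∀ z : ℝ, (if 0 < cos (π / (2 * t) * z) then (1 : ℝ) else 0) ≤
      ind t z + (1 - ind (3 * t) z) := by
    intro z
    have hn1 := Pool.Agent.Helper88.Slab.ind_nonneg t z
    have hn2 := Pool.Agent.Helper88.Slab.ind_le_one (3 * t) z
    split_ifs with h
    · by_cases h3 : |z| ≤ 3 * t
      · have h4 : |z| ≤ t := by
          by_contra hcon
          push Not at hcon
          have habs : cos (π / (2 * t) * |z|) = cos (π / (2 * t) * z) := by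
            rcases abs_choice z with hz | hz
            · rw [hz]
            · rw [hz, mul_neg, cos_neg]
          have h5 : cos (π / (2 * t) * |z|) ≤ 0 := by
            apply Real.cos_nonpos_of_pi_div_two_le_of_le
            · rw [div_mul_eq_mul_div, div_le_div_iff₀ (by norm_num) (by positivity)]
              nlinarith [Real.pi_pos]
            · rw [div_mul_eq_mul_div, div_le_iff₀ (by positivity)]
              nlinarith [Real.pi_pos]
          rw [habs] at h5
          linarith
        have h6 : ind t z = 1 := by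
          unfold ind
          rw [if_pos h4]
        linarith
      · have h6 : ind (3 * t) z = 0 := by
          unfold ind
          rw [if_neg h3]
        linarith
    · linarith
  have hi1 : Integrable (fun x : Fin n → ℝ => ind t (∑ j, a j * x j)) (cube n) :=
    Pool.Agent.Helper88.Slab.ind_integrable_cube t a
  have hi2 : Integrable (fun x : Fin n → ℝ => ind (3 * t) (∑ j, a j * x j)) (cube n) :=
    Pool.Agent.Helper88.Slab.ind_integrable_cube (3 * t) a
  have hw : Integrable (fun x : Fin n → ℝ => (if 0 < cos (π / (2 * t) * ∑ j, a j * x j) then (1 : ℝ) else 0))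
      (cube n) := by
    refine Integrable.of_bound ?_ 1 ?_
    · refine (Measurable.ite ?_ measurable_const measurable_const).aestronglyMeasurable
      exact measurableSet_lt measurable_const (by fun_prop)
    · filter_upwards with x
      split_ifs <;> simp
  have hmono : (∫ x, (if 0 < cos (π / (2 * t) * ∑ j, a j * x j) then (1 : ℝ) else 0) ∂(cube n)) ≤
      ∫ x, (ind t (∑ j, a j * x j) + (1 - ind (3 * t) (∑ j, a j * x j))) ∂(cube n) :=
    integral_mono hw (hi1.add ((integrable_const _).sub hi2)) (fun x => hpt _)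
  have hsum : ∫ x, (ind t (∑ j, a j * x j) + (1 - ind (3 * t) (∑ j, a j * x j))) ∂(cube n) =
      prob a t + (1 - prob a (3 * t)) := by
    have hi3 : Integrable (fun x : Fin n → ℝ => 1 - ind (3 * t) (∑ j, a j * x j)) (cube n) :=
      (integrable_const _).sub hi2
    rw [integral_add hi1 hi3, integral_sub (integrable_const _) hi2]
    simp [prob]
  have htail := tail_prob a ha (L := 3 * t) (by positivity)
  have he : -(3 / 2 : ℝ) * (3 * t) ^ 2 = -(27 / 2) * t ^ 2 := by ring
  rw [he] at htail
  linarith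

end Pool.Agent.Helper89.FA
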